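import Pool.Agent.MP306e37.Gen

set_option autoImplicit false
set_option linter.unusedSectionVars false

/-!
Counting the subgroups that contain a term of the filtration.
-/

namespace Pool.Agent.MP306e37

open Subgroup

variable {F : Type*} [Group F]

theorem Filt.normal (Φ : Filt F) (n : ℕ) : (Φ.D n).Normal := by
  constructor
  intro c hc g
  have h1 : g * c * g⁻¹ * c⁻¹ ∈ Φ.D (1 + n) := Φ.comm 1 n g c (by rw [Φ.D1]; trivial) hc
  have h2 := Φ.le_of_le (show n ≤ 1 + n by omega) h1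
  have h3 : g * c * g⁻¹ = (g * c * g⁻¹ * c⁻¹) * c := by group
  rw [h3]; exact (Φ.D n).mul_mem h2 hc

theorem Filt.index_ne_zero (Φ : Filt F) [Group.FG F] : ∀ n, (Φ.D n).index ≠ 0 := by
  intro n
  induction n with
  | zero => rw [Φ.D0]; simp
  | succ n ih =>
    rcases Nat.eq_zero_or_pos n with rfl | hn
    · rw [zero_add, Φ.D1]; simp
    haveI : (Φ.D n).FiniteIndex := ⟨ih⟩
    haveI hfg : Group.FG (Φ.D n) := Subgroup.fg_of_index_ne_zero _
    haveI := Φ.normal (n + 1)
    set N : Subgroup (Φ.D n) := (Φ.D (n + 1)).subgroupOf (Φ.D n) with hN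
    have hcomm : ∀ a b : (Φ.D n) ⧸ N, a * b = b * a := by
      intro a b
      obtain ⟨a, rfl⟩ := QuotientGroup.mk_surjective a
      obtain ⟨b, rfl⟩ := QuotientGroup.mk_surjective b
      rw [← QuotientGroup.mk_mul, ← QuotientGroup.mk_mul, QuotientGroup.eq, hN,
        Subgroup.mem_subgroupOf]
      have h1 := Φ.comm n n (b⁻¹ : F) (a⁻¹ : F) ((Φ.D n).inv_mem b.2) ((Φ.D n).inv_mem a.2)
      have h2 := Φ.le_of_le (show n + 1 ≤ n + n by omega) h1
      simpa [mul_assoc] using h2
    letI : CommGroup ((Φ.D n) ⧸ N) :=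
      { (inferInstance : Group ((Φ.D n) ⧸ N)) with mul_comm := hcomm }
    have htor : Monoid.IsTorsion ((Φ.D n) ⧸ N) := by
      intro a
      rw [isOfFinOrder_iff_pow_eq_one]
      refine ⟨2, by norm_num, ?_⟩
      obtain ⟨a, rfl⟩ := QuotientGroup.mk_surjective a
      rw [← QuotientGroup.mk_pow, QuotientGroup.eq_one_iff, hN, Subgroup.mem_subgroupOf]
      have h1 := Φ.sq n a a.2
      have h2 := Φ.le_of_le (show n + 1 ≤ n + n by omega) h1
      simpa [pow_two] using h2
    haveI hfin : Finite ((Φ.D n) ⧸ N) := CommGroup.finite_of_fg_torsion _ htor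
    have h1 : (Φ.D (n + 1)).relIndex (Φ.D n) ≠ 0 := by
      rw [Subgroup.relIndex]
      exact Subgroup.index_ne_zero_of_finite
    rw [← Subgroup.relIndex_mul_index (Φ.anti n)]
    exact mul_ne_zero h1 ih

theorem finite_above {N : Subgroup F} (hN : N.index ≠ 0) : {H : Subgroup F | N ≤ H}.Finite := by
  haveI : N.FiniteIndex := ⟨hN⟩
  haveI : Finite (F ⧸ N) := inferInstance
  have hinj : Set.InjOn (fun H : Subgroup F => {q : F ⧸ N | ∃ x ∈ H, (x : F ⧸ N) = q})
      {H : Subgroup F | N ≤ H} := by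
    intro H hH H' hH' heq
    simp only at heq
    have key : ∀ A B : Subgroup F, N ≤ B → {q : F ⧸ N | ∃ x ∈ A, (x : F ⧸ N) = q} =
        {q : F ⧸ N | ∃ x ∈ B, (x : F ⧸ N) = q} → A ≤ B := by
      intro A B hB h x hx
      have : (x : F ⧸ N) ∈ {q : F ⧸ N | ∃ x ∈ A, (x : F ⧸ N) = q} := ⟨x, hx, rfl⟩
      rw [h] at this
      obtain ⟨y, hy, hyx⟩ := this
      have h3 := QuotientGroup.eq.1 hyx
      have h4 : x = y * (y⁻¹ * x) := by group
      rw [h4]
      exact B.mul_mem hy (hB h3)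
    exact le_antisymm (key H H' hH' heq) (key H' H hH heq.symm)
  exact Set.Finite.of_finite_image (Set.toFinite _) hinj

/-- A uniform bound for generating lists of the subgroups containing `D m`. -/
theorem Filt.exists_base (Φ : Filt F) [Group.FG F] (m : ℕ) (s : ℝ) :
    ∃ C : ℝ, 0 ≤ C ∧ ∀ H : Subgroup F, Φ.D m ≤ H → ∃ L, GenList Φ H L ∧ W s L ≤ C := by
  classical
  have hex : ∀ H : Subgroup F, ∃ L : List (F × ℕ), Φ.D m ≤ H → GenList Φ H L := by
    intro H
    by_cases hH : Φ.D m ≤ H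
    · have hidx : H.index ≠ 0 := by
        intro h0
        have := Subgroup.index_dvd_of_le hH
        rw [h0, zero_dvd_iff] at this
        exact Φ.index_ne_zero m this
      haveI : H.FiniteIndex := ⟨hidx⟩
      have hfg : Group.FG H := Subgroup.fg_of_index_ne_zero _
      rw [Group.fg_iff_subgroup_fg] at hfg
      obtain ⟨S, hS⟩ := hfg
      refine ⟨S.toList.map (fun x => (x, 0)), fun _ => ⟨?_, ?_⟩⟩
      · intro p hp
        obtain ⟨x, -, rfl⟩ := List.mem_map.1 hp
        simp [Φ.D0]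
      · rw [← hS]
        congr 1
        ext x
        simp
    · exact ⟨[], fun h => absurd h hH⟩
  choose L hL using hex
  have hfin := finite_above (Φ.index_ne_zero m)
  obtain ⟨C, hC⟩ := (hfin.image (fun H => W s (L H))).bddAbove
  refine ⟨max C 0, le_max_right _ _, fun H hH => ⟨L H, hL H hH, ?_⟩⟩
  exact (hC ⟨H, hH, rfl⟩).trans (le_max_left _ _)

/-- Weighted generating lists for all subgroups containing some term of the filtration. -/
theorem Filt.exists_genList (Φ : Filt F) {m e : ℕ} {s C : ℝ} (hs0 : 0 < s) (hs1 : s ≤ 1)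
    (hC0 : 0 ≤ C) (hC : ∀ H : Subgroup F, Φ.D m ≤ H → ∃ L, GenList Φ H L ∧ W s L ≤ C) :
    ∀ (k : ℕ) (H : Subgroup F), Φ.D e ≤ H → H.index = 2 ^ k →
      ∃ L, GenList Φ H L ∧ W s L ≤ C * (1 + 2 * s ^ m) ^ k := by
  intro k
  have hsm : 0 ≤ s ^ m := by positivity
  induction k with
  | zero =>
    intro H he hk
    have : H = ⊤ := by
      rw [← Subgroup.index_eq_one]; simpa using hk
    obtain ⟨L, h1, h2⟩ := hC H (by rw [this]; exact le_top)
    exact ⟨L, h1, by simpa using h2⟩
  | succ k ih =>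
    intro H he hk
    by_cases hm : Φ.D m ≤ H
    · obtain ⟨L, h1, h2⟩ := hC H hm
      refine ⟨L, h1, h2.trans ?_⟩
      have : 1 ≤ (1 + 2 * s ^ m) ^ (k + 1) := one_le_pow₀ (by linarith)
      nlinarith
    · obtain ⟨K, g, hHK, hgK, hgm, hgH⟩ := Φ.exists_half he hm
      have hi := hHK.index
      rw [hk, pow_succ] at hi
      obtain ⟨L, h1, h2⟩ := ih K (he.trans hHK.le) (by omega)
      obtain ⟨L', h3, h4⟩ := step hHK h1 hgK hgH hgm hs0 hs1
      refine ⟨L', h3, h4.trans ?_⟩
      rw [pow_succ]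
      have h5 : 0 ≤ 1 + 2 * s ^ m := by linarith
      calc (1 + 2 * s ^ m) * W s L ≤ (1 + 2 * s ^ m) * (C * (1 + 2 * s ^ m) ^ k) :=
            mul_le_mul_of_nonneg_left h2 h5
        _ = C * ((1 + 2 * s ^ m) ^ k * (1 + 2 * s ^ m)) := by ring

/-- The number of light generators is controlled by the total weight. -/
theorem length_filter_le {s : ℝ} (hs0 : 0 < s) (hs1 : s ≤ 1) (e : ℕ) (L : List (F × ℕ)) :
    ((L.filter (fun p => decide (p.2 < e))).length : ℝ) * s ^ e ≤ W s L := by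
  induction L with
  | nil => simp [W]
  | cons p L ih =>
    rw [W_cons, List.filter_cons]
    have hp0 : 0 ≤ s ^ p.2 := by positivity
    split_ifs with h
    · rw [List.length_cons]
      push_cast
      have : s ^ e ≤ s ^ p.2 :=
        pow_le_pow_of_le_one hs0.le hs1 (le_of_lt (by simpa using h))
      linarith
    · linarith

theorem half_count {Φ : Filt F} {K : Subgroup F} {L : List (F × ℕ)} (hL : GenList Φ K L) (e : ℕ) :
    {H : Subgroup F | Half H K ∧ Φ.D e ≤ H}.Finite ∧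
    {H : Subgroup F | Half H K ∧ Φ.D e ≤ H}.ncard ≤
      2 ^ (L.filter (fun p => decide (p.2 < e))).length := by
  classical
  set L' := L.filter (fun p => decide (p.2 < e)) with hL'
  set f : Subgroup F → Set (Fin L'.length) := fun H => {i | (L'.get i).1 ∈ H} with hf
  have hinj : Set.InjOn f {H : Subgroup F | Half H K ∧ Φ.D e ≤ H} := by
    intro H hH H' hH' heq
    have hgen : ∀ p ∈ L, (p.1 ∈ H ↔ p.1 ∈ H') := by
      intro p hp
      by_cases hpe : p.2 < e
      · have hp' : p ∈ L' := by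
          rw [hL', List.mem_filter]
          exact ⟨hp, by simpa using hpe⟩
        obtain ⟨i, hi⟩ := List.mem_iff_get.1 hp'
        have h1 : i ∈ f H ↔ i ∈ f H' := by rw [heq]
        simp only [hf, Set.mem_setOf_eq, hi] at h1
        exact h1
      · have h1 : p.1 ∈ Φ.D e := Φ.le_of_le (not_lt.1 hpe) (hL.wt p hp)
        exact ⟨fun _ => hH'.2 h1, fun _ => hH.2 h1⟩
    have key : ∀ x ∈ K, (x ∈ H ↔ x ∈ H') := by
      intro x hx
      rw [← hL.gen] at hx
      induction hx using Subgroup.closure_induction with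
      | mem x hx =>
        obtain ⟨w, hw⟩ := hx
        exact hgen (x, w) hw
      | one => simp
      | mul a b ha hb iha ihb =>
        rw [hL.gen] at ha hb
        rw [hH.1.mul_mem_iff ha hb, hH'.1.mul_mem_iff ha hb, iha, ihb]
      | inv a _ iha =>
        rw [H.inv_mem_iff, H'.inv_mem_iff, iha]
    ext x
    constructor
    · intro hx
      exact (key x (hH.1.le hx)).1 hx
    · intro hx
      exact (key x (hH'.1.le hx)).2 hx
  refine ⟨Set.Finite.of_finite_image (Set.toFinite _) hinj, ?_⟩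
  have h1 := Set.ncard_le_ncard_of_injOn (t := (Set.univ : Set (Set (Fin L'.length)))) f
    (fun _ _ => Set.mem_univ _) hinj (Set.toFinite _)
  refine h1.trans ?_
  rw [Set.ncard_univ, Nat.card_eq_fintype_card, Fintype.card_set, Fintype.card_fin]

theorem Filt.count_level (Φ : Filt F) {e B K : ℕ}
    (hB : ∀ k ≤ K, ∀ H : Subgroup F, Φ.D e ≤ H → H.index = 2 ^ k →
      ∃ L, GenList Φ H L ∧ (L.filter (fun p => decide (p.2 < e))).length ≤ B) :
    ∀ k ≤ K, {H : Subgroup F | Φ.D e ≤ H ∧ H.index = 2 ^ k}.Finite ∧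
      {H : Subgroup F | Φ.D e ≤ H ∧ H.index = 2 ^ k}.ncard ≤ 2 ^ (k * B) := by
  classical
  intro k
  induction k with
  | zero =>
    intro _
    have hsub : {H : Subgroup F | Φ.D e ≤ H ∧ H.index = 2 ^ 0} ⊆ {⊤} := by
      rintro H ⟨-, hH⟩
      simpa using hH
    refine ⟨(Set.finite_singleton _).subset hsub, ?_⟩
    refine (Set.ncard_le_ncard hsub (Set.finite_singleton _)).trans ?_
    simp
  | succ k ih =>
    intro hk
    obtain ⟨hfin, hcard⟩ := ih (by omega)
    have hB' : ∀ H : Subgroup F, Φ.D e ≤ H → H.index = 2 ^ k →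
        {H' : Subgroup F | Half H' H ∧ Φ.D e ≤ H'}.Finite ∧
        {H' : Subgroup F | Half H' H ∧ Φ.D e ≤ H'}.ncard ≤ 2 ^ B := by
      intro H h1 h2
      obtain ⟨L, hL, hlen⟩ := hB k (by omega) H h1 h2
      obtain ⟨h3, h4⟩ := half_count hL e
      exact ⟨h3, h4.trans (Nat.pow_le_pow_right (by norm_num) hlen)⟩
    set A := hfin.toFinset with hA
    have hAmem : ∀ H, H ∈ A ↔ (Φ.D e ≤ H ∧ H.index = 2 ^ k) := by
      intro H; rw [hA, Set.Finite.mem_toFinset]; rfl
    set f : Subgroup F → Finset (Subgroup F) := fun H =>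
      if h : {H' : Subgroup F | Half H' H ∧ Φ.D e ≤ H'}.Finite then h.toFinset else ∅ with hf
    have hsub : {H : Subgroup F | Φ.D e ≤ H ∧ H.index = 2 ^ (k + 1)} ⊆ ((A.biUnion f : Finset (Subgroup F)) : Set (Subgroup F)) := by
      rintro H ⟨h1, h2⟩
      have htop : ¬ Φ.D 0 ≤ H := by
        rw [Φ.D0, top_le_iff]
        rintro rfl
        rw [Subgroup.index_top] at h2
        have : 1 < 2 ^ (k + 1) := Nat.one_lt_two_pow (by omega)
        omega
      obtain ⟨K', g, hHK, -, -, -⟩ := Φ.exists_half h1 htop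
      have hi := hHK.index
      rw [h2, pow_succ] at hi
      rw [Finset.coe_biUnion]
      simp only [Set.mem_iUnion]
      have hK' : Φ.D e ≤ K' ∧ K'.index = 2 ^ k := ⟨h1.trans hHK.le, by omega⟩
      refine ⟨K', (hAmem K').2 hK', ?_⟩
      simp only [hf]
      rw [dif_pos (hB' K' hK'.1 hK'.2).1]
      simp only [Set.Finite.coe_toFinset]
      exact ⟨hHK, h1⟩
    refine ⟨(Finset.finite_toSet _).subset hsub, ?_⟩
    refine (Set.ncard_le_ncard hsub (Finset.finite_toSet _)).trans ?_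
    rw [Set.ncard_coe_finset]
    refine (Finset.card_biUnion_le_card_mul A f (2 ^ B) ?_).trans ?_
    · intro H hH
      have hH' := (hAmem H).1 hH
      obtain ⟨h3, h4⟩ := hB' H hH'.1 hH'.2
      simp only [hf]
      rw [dif_pos h3, ← Set.ncard_eq_toFinset_card _ h3]
      exact h4
    · have : A.card = {H : Subgroup F | Φ.D e ≤ H ∧ H.index = 2 ^ k}.ncard := by
        rw [hA, ← Set.ncard_eq_toFinset_card _ hfin]
      rw [this, Nat.succ_mul, pow_add]
      exact Nat.mul_le_mul_right _ hcard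

/-- The count of all subgroups of small index that contain `D e`. -/
theorem Filt.count (Φ : Filt F) {e B K : ℕ}
    (hB : ∀ k ≤ K, ∀ H : Subgroup F, Φ.D e ≤ H → H.index = 2 ^ k →
      ∃ L, GenList Φ H L ∧ (L.filter (fun p => decide (p.2 < e))).length ≤ B) :
    {H : Subgroup F | Φ.D e ≤ H ∧ H.index ≠ 0 ∧ H.index ≤ 2 ^ K}.Finite ∧
    {H : Subgroup F | Φ.D e ≤ H ∧ H.index ≠ 0 ∧ H.index ≤ 2 ^ K}.ncard ≤
      (K + 1) * 2 ^ (K * B) := by
  classical
  have hlev := Φ.count_level hB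
  set f : ℕ → Finset (Subgroup F) := fun k =>
    if h : {H : Subgroup F | Φ.D e ≤ H ∧ H.index = 2 ^ k}.Finite then h.toFinset else ∅ with hf
  have hsub : {H : Subgroup F | Φ.D e ≤ H ∧ H.index ≠ 0 ∧ H.index ≤ 2 ^ K} ⊆
      (((Finset.range (K + 1)).biUnion f : Finset (Subgroup F)) : Set (Subgroup F)) := by
    rintro H ⟨h1, h2, h3⟩
    obtain ⟨k, hk⟩ := Φ.index_pow H.index H h1 rfl h2
    have hkK : k ≤ K := by
      rw [hk] at h3
      exact (Nat.pow_le_pow_iff_right (by norm_num)).1 h3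
    rw [Finset.coe_biUnion]
    simp only [Set.mem_iUnion]
    refine ⟨k, by simp; omega, ?_⟩
    simp only [hf]
    rw [dif_pos (hlev k hkK).1]
    simp only [Set.Finite.coe_toFinset]
    exact ⟨h1, hk⟩
  refine ⟨(Finset.finite_toSet _).subset hsub, ?_⟩
  refine (Set.ncard_le_ncard hsub (Finset.finite_toSet _)).trans ?_
  rw [Set.ncard_coe_finset]
  refine (Finset.card_biUnion_le_card_mul _ f (2 ^ (K * B)) ?_).trans ?_
  · intro k hk
    have hkK : k ≤ K := by
      have := Finset.mem_range.1 hk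
      omega
    obtain ⟨h3, h4⟩ := hlev k hkK
    simp only [hf]
    rw [dif_pos h3, ← Set.ncard_eq_toFinset_card _ h3]
    exact h4.trans (Nat.pow_le_pow_right (by norm_num) (Nat.mul_le_mul_right _ hkK))
  · simp

end Pool.Agent.MP306e37
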