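import Mathlib

set_option autoImplicit false
set_option linter.style.haveILetI false

/-!
Killing subgroups of small index with few elements.
-/

namespace Pool.Agent.MP306e37

open Subgroup

/-- In a finite group, for a finite family of proper subgroups some element avoids at least half
of them. -/
theorem exists_avoid_finite {Q : Type*} [Group Q] [Finite Q] {ι : Type*} [Fintype ι]
    (H : ι → Subgroup Q) (hH : ∀ i, H i ≠ ⊤) :
    ∃ q : Q, 2 * Nat.card {i // q ∈ H i} ≤ Fintype.card ι := by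
  classical
  haveI := Fintype.ofFinite Q
  by_contra hcon
  push Not at hcon
  -- each subgroup has at most half of the elements
  have hhalf : ∀ i, 2 * Nat.card (H i) ≤ Fintype.card Q := by
    intro i
    have h1 := (H i).card_mul_index
    have h2 : (H i).index ≠ 1 := fun h => hH i (Subgroup.index_eq_one.1 h)
    have h3 : (H i).index ≠ 0 := Subgroup.index_ne_zero_of_finite
    rw [Nat.card_eq_fintype_card (α := Q)] at h1
    have h4 : 2 ≤ (H i).index := by omega
    calc 2 * Nat.card (H i) = Nat.card (H i) * 2 := by ring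
      _ ≤ Nat.card (H i) * (H i).index := Nat.mul_le_mul_left _ h4
      _ = _ := h1
  have hsum : ∑ q : Q, Nat.card {i // q ∈ H i} = ∑ i : ι, Nat.card (H i) := by
    have e1 : ∀ q : Q, Nat.card {i // q ∈ H i} = ∑ i : ι, if q ∈ H i then 1 else 0 := by
      intro q
      rw [Nat.card_eq_fintype_card, Fintype.card_subtype, Finset.card_filter]
    have e2 : ∀ i : ι, Nat.card (H i) = ∑ q : Q, if q ∈ H i then 1 else 0 := by
      intro i
      rw [Nat.card_eq_fintype_card, ← Finset.card_filter, ← Fintype.card_subtype]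
    simp only [e1, e2]
    exact Finset.sum_comm
  have h5 : ∑ q : Q, (2 * Nat.card {i // q ∈ H i}) ≤ Fintype.card ι * Fintype.card Q := by
    rw [← Finset.mul_sum, hsum, Finset.mul_sum]
    calc ∑ i : ι, 2 * Nat.card (H i) ≤ ∑ _i : ι, Fintype.card Q :=
          Finset.sum_le_sum (fun i _ => hhalf i)
      _ = Fintype.card ι * Fintype.card Q := by simp
  have h6 : ∑ q : Q, Fintype.card ι < ∑ q : Q, (2 * Nat.card {i // q ∈ H i}) := by
    apply Finset.sum_lt_sum_of_nonempty Finset.univ_nonempty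
    intro q _
    exact hcon q
  simp only [Finset.sum_const, Finset.card_univ, smul_eq_mul] at h6
  rw [Nat.mul_comm] at h6
  omega

variable {F : Type*} [Group F]

/-- For a finite family of finite-index subgroups, none containing `D`, some element of `D` avoids
at least half of them. -/
theorem exists_avoid (D : Subgroup F) (𝓗 : Finset (Subgroup F))
    (hfin : ∀ H ∈ 𝓗, H.index ≠ 0) (hD : ∀ H ∈ 𝓗, ¬ D ≤ H) :
    ∃ r ∈ D, 2 * {H ∈ (𝓗 : Set (Subgroup F)) | r ∈ H}.ncard ≤ 𝓗.card := by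
  classical
  -- work inside the group `D`
  set A : {H // H ∈ 𝓗} → Subgroup D := fun H => (H : Subgroup F).subgroupOf D with hA
  have hAfin : ∀ H, (A H).index ≠ 0 := by
    intro H
    have h1 : (H : Subgroup F).relIndex D ≠ 0 := by
      intro h0
      have := Subgroup.relIndex_eq_zero_of_le_right (le_top : D ≤ ⊤) h0
      rw [Subgroup.relIndex_top_right] at this
      exact hfin H H.2 this
    exact h1
  haveI : ∀ H, (A H).FiniteIndex := fun H => ⟨hAfin H⟩
  set N : Subgroup D := ⨅ H, (A H).normalCore with hN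
  haveI hNfin : N.FiniteIndex := Subgroup.finiteIndex_iInf (fun H => inferInstance)
  haveI hNnorm : N.Normal := Subgroup.normal_iInf_normal (fun H => inferInstance)
  have hNA : ∀ H, N ≤ A H := fun H => (iInf_le _ H).trans (Subgroup.normalCore_le _)
  haveI : Finite (D ⧸ N) := inferInstance
  set B : {H // H ∈ 𝓗} → Subgroup (D ⧸ N) := fun H => (A H).map (QuotientGroup.mk' N) with hB
  have hmem : ∀ H, ∀ x : D, (x : D ⧸ N) ∈ B H ↔ x ∈ A H := by
    intro H x
    constructor
    · rintro ⟨y, hy, hyx⟩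
      have h1 := QuotientGroup.eq.1 hyx
      have h2 : x = y * (y⁻¹ * x) := by group
      rw [h2]
      exact (A H).mul_mem hy (hNA H h1)
    · intro hx
      exact ⟨x, hx, rfl⟩
  have hBtop : ∀ H, B H ≠ ⊤ := by
    intro H htop
    apply hD H H.2
    intro x hx
    have : ((⟨x, hx⟩ : D) : D ⧸ N) ∈ B H := by rw [htop]; trivial
    rw [hmem H] at this
    exact this
  obtain ⟨q, hq⟩ := exists_avoid_finite B hBtop
  obtain ⟨r, rfl⟩ := QuotientGroup.mk_surjective q
  refine ⟨r, r.2, ?_⟩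
  have hcard : {H ∈ (𝓗 : Set (Subgroup F)) | (r : F) ∈ H}.ncard ≤
      Nat.card {H // (r : D ⧸ N) ∈ B H} := by
    rw [← Nat.card_coe_set_eq]
    haveI : Finite {H // (r : D ⧸ N) ∈ B H} := inferInstance
    refine Nat.card_le_card_of_injective
      (fun H : {H ∈ (𝓗 : Set (Subgroup F)) | (r : F) ∈ H} =>
        (⟨⟨H.1, H.2.1⟩, (hmem _ r).2 (by exact H.2.2)⟩ : {H // (r : D ⧸ N) ∈ B H})) ?_
    intro H H' h
    simpa [Subtype.ext_iff] using h
  rw [Fintype.card_coe] at hq
  omega

/-- Greedy killing. -/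
theorem exists_kill (D : Subgroup F) : ∀ (j : ℕ) (𝓗 : Finset (Subgroup F)),
    (∀ H ∈ 𝓗, H.index ≠ 0) → (∀ H ∈ 𝓗, ¬ D ≤ H) → 𝓗.card < 2 ^ j →
    ∃ R : Finset F, (∀ r ∈ R, r ∈ D) ∧ R.card ≤ j ∧ ∀ H ∈ 𝓗, ∃ r ∈ R, r ∉ H := by
  classical
  intro j
  induction j with
  | zero =>
    intro 𝓗 _ _ hc
    have : 𝓗 = ∅ := by
      rw [← Finset.card_eq_zero]; simpa using hc
    subst this
    exact ⟨∅, by simp, by simp, by simp⟩
  | succ j ih =>
    intro 𝓗 hfin hD hc
    obtain ⟨r, hrD, hr⟩ := exists_avoid D 𝓗 hfin hD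
    have hset : {H ∈ (𝓗 : Set (Subgroup F)) | r ∈ H}.ncard = (𝓗.filter (fun H => r ∈ H)).card := by
      rw [← Set.ncard_coe_finset]
      congr 1
      ext H
      simp
    rw [hset] at hr
    obtain ⟨R, h1, h2, h3⟩ := ih (𝓗.filter (fun H => r ∈ H))
      (fun H hH => hfin H (Finset.mem_filter.1 hH).1)
      (fun H hH => hD H (Finset.mem_filter.1 hH).1) (by rw [pow_succ] at hc; omega)
    refine ⟨insert r R, ?_, ?_, ?_⟩
    · intro x hx
      rcases Finset.mem_insert.1 hx with rfl | hx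
      · exact hrD
      · exact h1 x hx
    · exact (Finset.card_insert_le _ _).trans (by omega)
    · intro H hH
      by_cases hrH : r ∈ H
      · obtain ⟨x, hx, hx'⟩ := h3 H (Finset.mem_filter.2 ⟨hH, hrH⟩)
        exact ⟨x, Finset.mem_insert_of_mem hx, hx'⟩
      · exact ⟨r, Finset.mem_insert_self _ _, hrH⟩

/-- The number of subgroups of index at most `n` of the free group of rank `d`. -/
theorem subgroups_count (d n : ℕ) (hn : 0 < n) :
    {H : Subgroup (FreeGroup (Fin d)) | H.index ≠ 0 ∧ H.index ≤ n}.Finite ∧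
    {H : Subgroup (FreeGroup (Fin d)) | H.index ≠ 0 ∧ H.index ≤ n}.ncard ≤ (n.factorial) ^ d := by
  classical
  set z : Fin n := ⟨0, hn⟩ with hz
  have hex : ∀ H : Subgroup (FreeGroup (Fin d)), ∃ φ : FreeGroup (Fin d) →* Equiv.Perm (Fin n),
      (H.index ≠ 0 ∧ H.index ≤ n) → ∀ g, g ∈ H ↔ φ g z = z := by
    intro H
    by_cases hH : H.index ≠ 0 ∧ H.index ≤ n
    · haveI : H.FiniteIndex := ⟨hH.1⟩
      haveI : Finite (FreeGroup (Fin d) ⧸ H) := inferInstance
      haveI := Fintype.ofFinite (FreeGroup (Fin d) ⧸ H)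
      have hcard : Fintype.card (FreeGroup (Fin d) ⧸ H) ≤ Fintype.card (Fin n) := by
        rw [Fintype.card_fin, ← Nat.card_eq_fintype_card]
        exact hH.2
      obtain ⟨ι⟩ := Function.Embedding.nonempty_of_card_le hcard
      set b : FreeGroup (Fin d) ⧸ H := ((1 : FreeGroup (Fin d)) : FreeGroup (Fin d) ⧸ H) with hb
      set ι' : (FreeGroup (Fin d) ⧸ H) ↪ Fin n :=
        ι.trans (Equiv.swap (ι b) z).toEmbedding with hι'
      have hι'b : ι' b = z := by
        simp [hι']
      refine ⟨(Equiv.Perm.viaEmbeddingHom ι').comp (MulAction.toPermHom _ _), fun _ g => ?_⟩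
      rw [← hι'b]
      simp only [MonoidHom.comp_apply, Equiv.Perm.viaEmbeddingHom_apply,
        Equiv.Perm.viaEmbedding_apply, MulAction.toPermHom_apply, MulAction.toPerm_apply]
      rw [ι'.injective.eq_iff, hb, MulAction.Quotient.smul_mk, smul_eq_mul, mul_one]
      constructor
      · intro hg
        rw [QuotientGroup.eq]
        simpa using hg
      · intro hg
        have := QuotientGroup.eq.1 hg
        simpa using this
    · exact ⟨1, fun h => absurd h hH⟩
  choose φ hφ using hex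
  set f : Subgroup (FreeGroup (Fin d)) → (Fin d → Equiv.Perm (Fin n)) :=
    fun H i => φ H (FreeGroup.of i) with hf
  have hinj : Set.InjOn f {H : Subgroup (FreeGroup (Fin d)) | H.index ≠ 0 ∧ H.index ≤ n} := by
    intro H hH H' hH' heq
    have h1 : φ H = φ H' := by
      apply FreeGroup.ext_hom
      intro i
      exact congrFun heq i
    ext g
    rw [hφ H hH g, hφ H' hH' g, h1]
  refine ⟨Set.Finite.of_finite_image (Set.toFinite _) hinj, ?_⟩
  have h1 := Set.ncard_le_ncard_of_injOn (t := (Set.univ : Set (Fin d → Equiv.Perm (Fin n)))) f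
    (fun _ _ => Set.mem_univ _) hinj (Set.toFinite _)
  refine h1.trans ?_
  rw [Set.ncard_univ, Nat.card_eq_fintype_card, Fintype.card_pi]
  simp [Fintype.card_perm]

/-- Few elements of `D` force every subgroup of small index to contain `D`. -/
theorem exists_relators (d n j : ℕ) (hn : 0 < n) (hj : (n.factorial) ^ d < 2 ^ j)
    (D : Subgroup (FreeGroup (Fin d))) :
    ∃ R : Finset (FreeGroup (Fin d)), (∀ r ∈ R, r ∈ D) ∧ R.card ≤ j ∧
      ∀ H : Subgroup (FreeGroup (Fin d)), H.index ≠ 0 → H.index ≤ n → (∀ r ∈ R, r ∈ H) → D ≤ H := by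
  classical
  obtain ⟨hfin, hcard⟩ := subgroups_count d n hn
  set 𝓗 := hfin.toFinset.filter (fun H => ¬ D ≤ H) with h𝓗
  have hmem : ∀ H, H ∈ 𝓗 ↔ (H.index ≠ 0 ∧ H.index ≤ n) ∧ ¬ D ≤ H := by
    intro H
    rw [h𝓗, Finset.mem_filter, Set.Finite.mem_toFinset]
    rfl
  have hc : 𝓗.card < 2 ^ j := by
    refine lt_of_le_of_lt (Finset.card_filter_le _ _) ?_
    rw [← Set.ncard_eq_toFinset_card _ hfin]
    exact lt_of_le_of_lt hcard hj
  obtain ⟨R, h1, h2, h3⟩ := exists_kill D j 𝓗 (fun H hH => ((hmem H).1 hH).1.1)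
    (fun H hH => ((hmem H).1 hH).2) hc
  refine ⟨R, h1, h2, fun H h4 h5 h6 => ?_⟩
  by_contra hcon
  obtain ⟨r, hr, hr'⟩ := h3 H ((hmem H).2 ⟨⟨h4, h5⟩, hcon⟩)
  exact hr' (h6 r hr)

end Pool.Agent.MP306e37
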