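import Pool.Agent.MP306e37.Half

set_option autoImplicit false
set_option linter.style.haveILetI false

/-!
The mod-2 Zassenhaus filtration.
-/

namespace Pool.Agent.MP306e37

open MonoidAlgebra

variable (F : Type*) [Group F]

/-- The augmentation ideal, as a subspace. -/
noncomputable def Aug : Submodule (ZMod 2) (MonoidAlgebra (ZMod 2) F) :=
  Submodule.span (ZMod 2) (Set.range fun g : F => MonoidAlgebra.of (ZMod 2) F g - 1)

/-- The powers of the augmentation ideal, with the whole algebra as the zeroth power. -/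
noncomputable def AugPow (n : ℕ) : Submodule (ZMod 2) (MonoidAlgebra (ZMod 2) F) :=
  if n = 0 then ⊤ else Aug F ^ n

variable {F}

theorem mul_mem_aug (a : MonoidAlgebra (ZMod 2) F) {x : MonoidAlgebra (ZMod 2) F}
    (hx : x ∈ Aug F) : a * x ∈ Aug F := by
  induction a using MonoidAlgebra.induction_on with
  | of g =>
    unfold Aug at hx ⊢
    induction hx using Submodule.span_induction with
    | mem x hx =>
      obtain ⟨h, rfl⟩ := hx
      have : MonoidAlgebra.of (ZMod 2) F g * (MonoidAlgebra.of (ZMod 2) F h - 1) =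
          (MonoidAlgebra.of (ZMod 2) F (g * h) - 1) - (MonoidAlgebra.of (ZMod 2) F g - 1) := by
        rw [map_mul, mul_sub, mul_one]; abel
      rw [this]
      exact Submodule.sub_mem _ (Submodule.subset_span ⟨_, rfl⟩) (Submodule.subset_span ⟨_, rfl⟩)
    | zero => simp
    | add x y _ _ ihx ihy => rw [mul_add]; exact Submodule.add_mem _ ihx ihy
    | smul c x _ ihx => rw [mul_smul_comm]; exact Submodule.smul_mem _ _ ihx
  | add a b iha ihb => rw [add_mul]; exact Submodule.add_mem _ iha ihb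
  | smul c a iha => rw [smul_mul_assoc]; exact Submodule.smul_mem _ _ iha

theorem aug_mul_mem (a : MonoidAlgebra (ZMod 2) F) {x : MonoidAlgebra (ZMod 2) F}
    (hx : x ∈ Aug F) : x * a ∈ Aug F := by
  induction a using MonoidAlgebra.induction_on with
  | of g =>
    unfold Aug at hx ⊢
    induction hx using Submodule.span_induction with
    | mem x hx =>
      obtain ⟨h, rfl⟩ := hx
      have : (MonoidAlgebra.of (ZMod 2) F h - 1) * MonoidAlgebra.of (ZMod 2) F g =
          (MonoidAlgebra.of (ZMod 2) F (h * g) - 1) - (MonoidAlgebra.of (ZMod 2) F g - 1) := by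
        rw [map_mul, sub_mul, one_mul]; abel
      rw [this]
      exact Submodule.sub_mem _ (Submodule.subset_span ⟨_, rfl⟩) (Submodule.subset_span ⟨_, rfl⟩)
    | zero => simp
    | add x y _ _ ihx ihy => rw [add_mul]; exact Submodule.add_mem _ ihx ihy
    | smul c x _ ihx => rw [smul_mul_assoc]; exact Submodule.smul_mem _ _ ihx
  | add a b iha ihb => rw [mul_add]; exact Submodule.add_mem _ iha ihb
  | smul c a iha => rw [mul_smul_comm]; exact Submodule.smul_mem _ _ iha

theorem mul_mem_pow (a : MonoidAlgebra (ZMod 2) F) {n : ℕ} {x : MonoidAlgebra (ZMod 2) F}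
    (hx : x ∈ Aug F ^ (n + 1)) : a * x ∈ Aug F ^ (n + 1) := by
  rw [pow_succ'] at hx ⊢
  induction hx using Submodule.mul_induction_on' with
  | mem_mul_mem m hm y hy =>
    rw [← mul_assoc]
    exact Submodule.mul_mem_mul (mul_mem_aug a hm) hy
  | add x _ y _ ihx ihy => rw [mul_add]; exact Submodule.add_mem _ ihx ihy

theorem pow_mul_mem (a : MonoidAlgebra (ZMod 2) F) {n : ℕ} {x : MonoidAlgebra (ZMod 2) F}
    (hx : x ∈ Aug F ^ (n + 1)) : x * a ∈ Aug F ^ (n + 1) := by
  rw [pow_succ] at hx ⊢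
  induction hx using Submodule.mul_induction_on' with
  | mem_mul_mem m hm y hy =>
    rw [mul_assoc]
    exact Submodule.mul_mem_mul hm (aug_mul_mem a hy)
  | add x _ y _ ihx ihy => rw [add_mul]; exact Submodule.add_mem _ ihx ihy

theorem mul_mem_augPow (a : MonoidAlgebra (ZMod 2) F) {n : ℕ} {x : MonoidAlgebra (ZMod 2) F}
    (hx : x ∈ AugPow F n) : a * x ∈ AugPow F n := by
  rcases n with _ | n
  · simp [AugPow]
  · simp only [AugPow, Nat.add_eq_zero_iff, one_ne_zero, and_false, if_false] at hx ⊢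
    exact mul_mem_pow a hx

theorem augPow_mul_mem (a : MonoidAlgebra (ZMod 2) F) {n : ℕ} {x : MonoidAlgebra (ZMod 2) F}
    (hx : x ∈ AugPow F n) : x * a ∈ AugPow F n := by
  rcases n with _ | n
  · simp [AugPow]
  · simp only [AugPow, Nat.add_eq_zero_iff, one_ne_zero, and_false, if_false] at hx ⊢
    exact pow_mul_mem a hx

theorem augPow_mul {a b : ℕ} {x y : MonoidAlgebra (ZMod 2) F} (hx : x ∈ AugPow F a)
    (hy : y ∈ AugPow F b) : x * y ∈ AugPow F (a + b) := by
  rcases Nat.eq_zero_or_pos a with rfl | ha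
  · rw [zero_add]; exact mul_mem_augPow x hy
  rcases Nat.eq_zero_or_pos b with rfl | hb
  · rw [add_zero]; exact augPow_mul_mem y hx
  simp only [AugPow, ha.ne', hb.ne', if_false, (show a + b ≠ 0 by omega)] at hx hy ⊢
  rw [pow_add]
  exact Submodule.mul_mem_mul hx hy

theorem augPow_anti (n : ℕ) : AugPow F (n + 1) ≤ AugPow F n := by
  intro x hx
  rcases Nat.eq_zero_or_pos n with rfl | hn
  · simp [AugPow]
  · obtain ⟨k, rfl⟩ : ∃ k, n = k + 1 := ⟨n - 1, by omega⟩
    simp only [AugPow, Nat.add_eq_zero_iff, one_ne_zero, and_false, if_false] at hx ⊢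
    rw [pow_succ'] at hx
    induction hx using Submodule.mul_induction_on' with
    | mem_mul_mem m hm y hy => exact mul_mem_pow m hy
    | add x _ y _ ihx ihy => exact Submodule.add_mem _ ihx ihy

variable (F)

/-- The terms of the mod-2 Zassenhaus filtration. -/
noncomputable def Dim (n : ℕ) : Subgroup F where
  carrier := {g | MonoidAlgebra.of (ZMod 2) F g - 1 ∈ AugPow F n}
  one_mem' := by
    show MonoidAlgebra.of (ZMod 2) F 1 - 1 ∈ AugPow F n
    rw [map_one, sub_self]
    exact Submodule.zero_mem _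
  mul_mem' := by
    intro g h hg hh
    show MonoidAlgebra.of (ZMod 2) F (g * h) - 1 ∈ AugPow F n
    have : MonoidAlgebra.of (ZMod 2) F (g * h) - 1 =
        MonoidAlgebra.of (ZMod 2) F g * (MonoidAlgebra.of (ZMod 2) F h - 1) +
          (MonoidAlgebra.of (ZMod 2) F g - 1) := by
      rw [map_mul, mul_sub, mul_one]; abel
    rw [this]
    exact Submodule.add_mem _ (mul_mem_augPow _ hh) hg
  inv_mem' := by
    intro g hg
    show MonoidAlgebra.of (ZMod 2) F g⁻¹ - 1 ∈ AugPow F n
    have h1 : MonoidAlgebra.of (ZMod 2) F g⁻¹ * MonoidAlgebra.of (ZMod 2) F g = 1 := by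
      rw [← map_mul, inv_mul_cancel, map_one]
    have : MonoidAlgebra.of (ZMod 2) F g⁻¹ - 1 =
        -(MonoidAlgebra.of (ZMod 2) F g⁻¹ * (MonoidAlgebra.of (ZMod 2) F g - 1)) := by
      rw [mul_sub, mul_one, h1]; abel
    rw [this]
    exact Submodule.neg_mem _ (mul_mem_augPow _ hg)

variable {F}

theorem mem_dim {n : ℕ} {g : F} :
    g ∈ Dim F n ↔ MonoidAlgebra.of (ZMod 2) F g - 1 ∈ AugPow F n := Iff.rfl

theorem two_eq_zero' : (2 : MonoidAlgebra (ZMod 2) F) = 0 := by
  have h : (2 : MonoidAlgebra (ZMod 2) F) = algebraMap (ZMod 2) _ 2 := by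
    rw [map_ofNat]
  rw [h]
  have : (2 : ZMod 2) = 0 := by decide
  rw [this, map_zero]

/-- The mod-2 Zassenhaus filtration as a filtration in our sense. -/
noncomputable def zass : Filt F where
  D := Dim F
  D0 := by
    rw [eq_top_iff]
    intro g _
    rw [mem_dim]
    simp [AugPow]
  D1 := by
    rw [eq_top_iff]
    intro g _
    rw [mem_dim]
    simp only [AugPow, one_ne_zero, if_false, pow_one]
    exact Submodule.subset_span ⟨g, rfl⟩
  anti := fun n g hg => augPow_anti n hg
  comm := by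
    intro a b g h hg hh
    rw [mem_dim] at hg hh ⊢
    have h1 : MonoidAlgebra.of (ZMod 2) F h * MonoidAlgebra.of (ZMod 2) F g *
        MonoidAlgebra.of (ZMod 2) F (g⁻¹ * h⁻¹) = 1 := by
      rw [← map_mul, ← map_mul]
      have : h * g * (g⁻¹ * h⁻¹) = 1 := by group
      rw [this, map_one]
    have h2 : MonoidAlgebra.of (ZMod 2) F (g * h * g⁻¹ * h⁻¹) =
        MonoidAlgebra.of (ZMod 2) F g * MonoidAlgebra.of (ZMod 2) F h *
        MonoidAlgebra.of (ZMod 2) F (g⁻¹ * h⁻¹) := by
      rw [← map_mul, ← map_mul]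
      congr 1
      group
    have h3 : MonoidAlgebra.of (ZMod 2) F (g * h * g⁻¹ * h⁻¹) - 1 =
        ((MonoidAlgebra.of (ZMod 2) F g - 1) * (MonoidAlgebra.of (ZMod 2) F h - 1) -
          (MonoidAlgebra.of (ZMod 2) F h - 1) * (MonoidAlgebra.of (ZMod 2) F g - 1)) *
          MonoidAlgebra.of (ZMod 2) F (g⁻¹ * h⁻¹) := by
      rw [h2]
      nth_rewrite 1 [← h1]
      noncomm_ring
    rw [h3]
    apply augPow_mul_mem
    refine Submodule.sub_mem _ (augPow_mul hg hh) ?_
    rw [add_comm a b]
    exact augPow_mul hh hg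
  sq := by
    intro a g hg
    rw [mem_dim] at hg ⊢
    have h1 : MonoidAlgebra.of (ZMod 2) F (g * g) - 1 =
        (MonoidAlgebra.of (ZMod 2) F g - 1) * (MonoidAlgebra.of (ZMod 2) F g - 1) := by
      rw [map_mul]
      have h2 : (MonoidAlgebra.of (ZMod 2) F g - 1) * (MonoidAlgebra.of (ZMod 2) F g - 1) =
          MonoidAlgebra.of (ZMod 2) F g * MonoidAlgebra.of (ZMod 2) F g - 1 -
            2 * (MonoidAlgebra.of (ZMod 2) F g - 1) := by noncomm_ring
      rw [h2, two_eq_zero', zero_mul, sub_zero]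
    rw [h1]
    exact augPow_mul hg hg

theorem mem_zass {n : ℕ} (hn : n ≠ 0) {g : F} :
    g ∈ (zass (F := F)).D n ↔ MonoidAlgebra.of (ZMod 2) F g - 1 ∈
      (Submodule.span (ZMod 2) (Set.range fun g : F => MonoidAlgebra.of (ZMod 2) F g - 1)) ^ n := by
  show g ∈ Dim F n ↔ _
  rw [mem_dim]
  simp only [AugPow, hn, if_false]
  rfl

end Pool.Agent.MP306e37
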