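import Pool.Agent.MP306e37.Count
import Pool.Agent.MP306e37.Kill
import Pool.Agent.MP306e37.Zass

set_option autoImplicit false
set_option linter.style.haveILetI false

/-!
Assembly: a Golod-Shafarevich group of subexponential subgroup growth.
-/

namespace Pool.Agent.MP306e37

open Subgroup

theorem tele_bound (N : ℕ) :
    ∑ i ∈ Finset.Ico 10 N, ((4 * i * 2 ^ i + 1 : ℕ) : ℝ) * (1 / 4 : ℝ) ^ i ≤ 1 / 2 := by
  have key : ∀ N : ℕ, 10 ≤ N →
      ∑ i ∈ Finset.Ico 10 N, ((4 * i * 2 ^ i + 1 : ℕ) : ℝ) * (1 / 4 : ℝ) ^ i =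
        (8 * 11 * (1 / 2 : ℝ) ^ 10 + (4 / 3) * (1 / 4 : ℝ) ^ 10) -
          (8 * (N + 1) * (1 / 2 : ℝ) ^ N + (4 / 3) * (1 / 4 : ℝ) ^ N) := by
    intro N hN
    induction N, hN using Nat.le_induction with
    | base => norm_num
    | succ n hn ih =>
      rw [Finset.sum_Ico_succ_top hn, ih]
      push_cast
      have h1 : (2 : ℝ) ^ n * (1 / 4 : ℝ) ^ n = (1 / 2 : ℝ) ^ n := by
        rw [← mul_pow]; norm_num
      have h2 : (4 * (n : ℝ) * 2 ^ n + 1) * (1 / 4 : ℝ) ^ n =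
          4 * n * (1 / 2 : ℝ) ^ n + (1 / 4 : ℝ) ^ n := by
        rw [add_mul, mul_assoc (4 * (n : ℝ)), h1]; ring
      rw [h2, pow_succ, pow_succ]
      ring
  rcases le_or_gt 10 N with h | h
  · rw [key N h]
    have h1 : 0 ≤ 8 * ((N : ℝ) + 1) * (1 / 2 : ℝ) ^ N + (4 / 3) * (1 / 4 : ℝ) ^ N := by positivity
    have h2 : 8 * 11 * (1 / 2 : ℝ) ^ 10 + (4 / 3) * (1 / 4 : ℝ) ^ 10 ≤ 1 / 2 := by norm_num
    linarith
  · rw [Finset.Ico_eq_empty (by omega)]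
    norm_num

theorem sum_bound {F : Type*} (R : ℕ → Finset F) (hcard : ∀ i, (R i).card ≤ 4 * i * 2 ^ i + 1)
    (idx : F → ℕ) (u : Finset F) (hu : ∀ r ∈ u, 10 ≤ idx r ∧ r ∈ R (idx r)) :
    ∑ r ∈ u, (1 / 2 : ℝ) ^ (2 * idx r) ≤ 1 / 2 := by
  classical
  obtain ⟨N, hN⟩ : ∃ N, ∀ r ∈ u, idx r < N := by
    refine ⟨u.sup idx + 1, fun r hr => Nat.lt_succ_of_le (Finset.le_sup hr)⟩
  have hmaps : ∀ r ∈ u, idx r ∈ Finset.Ico 10 N := fun r hr =>
    Finset.mem_Ico.2 ⟨(hu r hr).1, hN r hr⟩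
  rw [← Finset.sum_fiberwise_of_maps_to hmaps]
  refine le_trans (Finset.sum_le_sum ?_) (tele_bound N)
  intro i _
  have h1 : ∑ r ∈ u with idx r = i, (1 / 2 : ℝ) ^ (2 * idx r) =
      ((u.filter (fun r => idx r = i)).card : ℝ) * (1 / 4 : ℝ) ^ i := by
    rw [Finset.sum_congr rfl (g := fun _ => (1 / 4 : ℝ) ^ i)]
    · rw [Finset.sum_const, nsmul_eq_mul]
    · intro r hr
      rw [(Finset.mem_filter.1 hr).2, pow_mul]
      norm_num
  rw [h1]
  apply mul_le_mul_of_nonneg_right _ (by positivity)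
  have h2 : (u.filter (fun r => idx r = i)).card ≤ (R i).card := by
    apply Finset.card_le_card
    intro r hr
    obtain ⟨h3, h4⟩ := Finset.mem_filter.1 hr
    have := (hu r h3).2
    rwa [h4] at this
  exact_mod_cast h2.trans (hcard i)

theorem factorial_bound (i : ℕ) : ((2 ^ i).factorial) ^ 4 < 2 ^ (4 * i * 2 ^ i + 1) := by
  have h1 : (2 ^ i).factorial ≤ (2 ^ i) ^ (2 ^ i) := Nat.factorial_le_pow _
  have h2 : ((2 ^ i).factorial) ^ 4 ≤ ((2 ^ i) ^ (2 ^ i)) ^ 4 := Nat.pow_le_pow_left h1 4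
  have h3 : ((2 ^ i) ^ (2 ^ i)) ^ 4 = 2 ^ (4 * i * 2 ^ i) := by
    rw [← pow_mul, ← pow_mul]
    congr 1
    ring
  rw [h3] at h2
  refine lt_of_le_of_lt h2 ?_
  exact Nat.pow_lt_pow_right (by norm_num) (by omega)

/-- Numerical growth estimate. -/
theorem growth (C : ℝ) (hC : 0 ≤ C) (ε : ℝ) (hε : 0 < ε) : ∃ I : ℕ, ∀ i : ℕ, I ≤ i →
    ((i + 1 : ℕ) : ℝ) * (2 : ℝ) ^ (i * ⌊C * (3 / 2 : ℝ) ^ i⌋₊) ≤ Real.exp (ε * (2 ^ i / 2)) := by
  have h1 := tendsto_self_mul_const_pow_of_lt_one (r := 1 / 2) (by norm_num) (by norm_num)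
  have h2 := tendsto_self_mul_const_pow_of_lt_one (r := 3 / 4) (by norm_num) (by norm_num)
  have h3 : Filter.Tendsto (fun n : ℕ => (n : ℝ) * (1 / 2 : ℝ) ^ n + C * ((n : ℝ) * (3 / 4 : ℝ) ^ n))
      Filter.atTop (nhds (0 + C * 0)) := h1.add (h2.const_mul C)
  rw [mul_zero, add_zero] at h3
  have h4 := h3.eventually (gt_mem_nhds (show (0 : ℝ) < ε / 2 by positivity))
  obtain ⟨I, hI⟩ := Filter.eventually_atTop.1 h4
  refine ⟨I, fun i hi => ?_⟩
  have h5 := hI i hi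
  have h2i : (0 : ℝ) < 2 ^ i := by positivity
  have h6 : (i : ℝ) + C * (i * (3 / 2 : ℝ) ^ i) ≤ ε * (2 ^ i / 2) := by
    have e1 : (2 : ℝ) ^ i * (1 / 2 : ℝ) ^ i = 1 := by
      rw [← mul_pow]; norm_num
    have e2 : (2 : ℝ) ^ i * (3 / 4 : ℝ) ^ i = (3 / 2 : ℝ) ^ i := by
      rw [← mul_pow]; norm_num
    have h7 := mul_le_mul_of_nonneg_left h5.le h2i.le
    have h8 : (2 : ℝ) ^ i * ((i : ℝ) * (1 / 2 : ℝ) ^ i + C * ((i : ℝ) * (3 / 4 : ℝ) ^ i)) =
        i * ((2 : ℝ) ^ i * (1 / 2 : ℝ) ^ i) + C * (i * ((2 : ℝ) ^ i * (3 / 4 : ℝ) ^ i)) := by ring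
    rw [h8, e1, e2, mul_one] at h7
    linarith
  have h9 : ((i + 1 : ℕ) : ℝ) ≤ Real.exp i := by
    push_cast
    have := Real.add_one_le_exp (i : ℝ)
    linarith
  have h10 : (2 : ℝ) ^ (i * ⌊C * (3 / 2 : ℝ) ^ i⌋₊) ≤ Real.exp (C * (i * (3 / 2 : ℝ) ^ i)) := by
    have e3 : (2 : ℝ) ≤ Real.exp 1 := by
      have := Real.add_one_le_exp (1 : ℝ)
      linarith
    calc (2 : ℝ) ^ (i * ⌊C * (3 / 2 : ℝ) ^ i⌋₊) ≤ (Real.exp 1) ^ (i * ⌊C * (3 / 2 : ℝ) ^ i⌋₊) :=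
          pow_le_pow_left₀ (by norm_num) e3 _
      _ = Real.exp ((i * ⌊C * (3 / 2 : ℝ) ^ i⌋₊ : ℕ) : ℝ) := by
          rw [← Real.exp_nat_mul, mul_one]
      _ ≤ Real.exp (C * (i * (3 / 2 : ℝ) ^ i)) := by
          apply Real.exp_le_exp.2
          push_cast
          have : (⌊C * (3 / 2 : ℝ) ^ i⌋₊ : ℝ) ≤ C * (3 / 2 : ℝ) ^ i :=
            Nat.floor_le (by positivity)
          calc (i : ℝ) * (⌊C * (3 / 2 : ℝ) ^ i⌋₊ : ℝ) ≤ i * (C * (3 / 2 : ℝ) ^ i) :=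
                mul_le_mul_of_nonneg_left this (by positivity)
            _ = _ := by ring
  calc ((i + 1 : ℕ) : ℝ) * (2 : ℝ) ^ (i * ⌊C * (3 / 2 : ℝ) ^ i⌋₊)
      ≤ Real.exp i * Real.exp (C * (i * (3 / 2 : ℝ) ^ i)) :=
        mul_le_mul h9 h10 (by positivity) (by positivity)
    _ = Real.exp (i + C * (i * (3 / 2 : ℝ) ^ i)) := by rw [← Real.exp_add]
    _ ≤ Real.exp (ε * (2 ^ i / 2)) := Real.exp_le_exp.2 h6

/-- Counting the subgroups of index at most `2 ^ i` that contain `D (2 i)`. -/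
theorem count_zass {F : Type*} [Group F] [Group.FG F] (Φ : Filt F) : ∃ C : ℝ, 0 ≤ C ∧ ∀ i : ℕ,
    {H : Subgroup F | Φ.D (2 * i) ≤ H ∧ H.index ≠ 0 ∧ H.index ≤ 2 ^ i}.Finite ∧
    {H : Subgroup F | Φ.D (2 * i) ≤ H ∧ H.index ≠ 0 ∧ H.index ≤ 2 ^ i}.ncard ≤
      (i + 1) * 2 ^ (i * ⌊C * (3 / 2 : ℝ) ^ i⌋₊) := by
  obtain ⟨C, hC0, hC⟩ := Φ.exists_base 30 (9 / 10 : ℝ)
  refine ⟨C, hC0, fun i => ?_⟩
  apply Φ.count
  intro k hk H hH hidx
  obtain ⟨L, hL, hW⟩ := Φ.exists_genList (e := 2 * i) (by norm_num) (by norm_num) hC0 hC k H hH hidx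
  refine ⟨L, hL, ?_⟩
  have h1 := length_filter_le (s := (9 / 10 : ℝ)) (by norm_num) (by norm_num) (2 * i) L
  set len := (L.filter (fun p => decide (p.2 < 2 * i))).length with hlen
  apply Nat.le_floor
  have h2 : (1 + 2 * (9 / 10 : ℝ) ^ 30) ^ k ≤ (1 + 2 * (9 / 10 : ℝ) ^ 30) ^ i :=
    pow_le_pow_right₀ (by norm_num) hk
  have h3 : (len : ℝ) * (9 / 10 : ℝ) ^ (2 * i) ≤ C * (1 + 2 * (9 / 10 : ℝ) ^ 30) ^ i :=
    (h1.trans hW).trans (mul_le_mul_of_nonneg_left h2 hC0)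
  have h4 : (0 : ℝ) ≤ ((10 / 9 : ℝ) ^ 2) ^ i := by positivity
  have h5 := mul_le_mul_of_nonneg_right h3 h4
  have h6 : (len : ℝ) * (9 / 10 : ℝ) ^ (2 * i) * ((10 / 9 : ℝ) ^ 2) ^ i = len := by
    rw [pow_mul, mul_assoc, ← mul_pow]
    norm_num
  rw [h6] at h5
  refine h5.trans ?_
  rw [mul_assoc, ← mul_pow]
  apply mul_le_mul_of_nonneg_left _ hC0
  apply pow_le_pow_left₀ (by positivity)
  norm_num

/-- The main theorem. -/
theorem main :
  ∃ (p : ℕ) (d : ℕ) (R : Set (FreeGroup (Fin d))) (deg : FreeGroup (Fin d) → ℕ) (t : ℝ),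
    p.Prime ∧ 0 < t ∧ t < 1 ∧
    (∀ r ∈ R, MonoidAlgebra.of (ZMod p) (FreeGroup (Fin d)) r - 1 ∈
        (Submodule.span (ZMod p) (Set.range fun g : FreeGroup (Fin d) =>
          MonoidAlgebra.of (ZMod p) (FreeGroup (Fin d)) g - 1)) ^ (deg r)) ∧
    Summable (fun r : R => t ^ deg (r : FreeGroup (Fin d))) ∧
    1 - (d : ℝ) * t + ∑' r : R, t ^ deg (r : FreeGroup (Fin d)) < 0 ∧
    ∀ ε : ℝ, 0 < ε → ∃ N : ℕ, ∀ n : ℕ, N ≤ n →
      ((Set.ncard {H : Subgroup (FreeGroup (Fin d) ⧸ Subgroup.normalClosure R) |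
          H.index ≠ 0 ∧ H.index ≤ n} : ℕ) : ℝ) ≤ Real.exp (ε * (n : ℝ)) := by
  classical
  have hex := fun i : ℕ => exists_relators 4 (2 ^ i) (4 * i * 2 ^ i + 1) (by positivity)
    (factorial_bound i) ((zass (F := FreeGroup (Fin 4))).D (2 * i))
  choose R hRD hRcard hRkill using hex
  set S : Set (FreeGroup (Fin 4)) := {r | ∃ i, 10 ≤ i ∧ r ∈ R i} with hS
  set idx : FreeGroup (Fin 4) → ℕ := fun r =>
    if h : ∃ i, 10 ≤ i ∧ r ∈ R i then h.choose else 0 with hidx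
  have hidxS : ∀ r ∈ S, 10 ≤ idx r ∧ r ∈ R (idx r) := by
    intro r hr
    have hr' : ∃ i, 10 ≤ i ∧ r ∈ R i := hr
    simp only [hidx]
    rw [dif_pos hr']
    exact hr'.choose_spec
  have hnn : (0 : (S → ℝ)) ≤ fun r : S => (1 / 2 : ℝ) ^ (2 * idx (r : FreeGroup (Fin 4))) := by
    intro r
    show (0 : ℝ) ≤ (1 / 2 : ℝ) ^ (2 * idx (r : FreeGroup (Fin 4)))
    positivity
  have hsum : ∀ u : Finset S,
      ∑ r ∈ u, (1 / 2 : ℝ) ^ (2 * idx (r : FreeGroup (Fin 4))) ≤ 1 / 2 := by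
    intro u
    have h1 := sum_bound R hRcard idx (u.map (Function.Embedding.subtype _)) (by
      intro r hr
      obtain ⟨a, -, rfl⟩ := Finset.mem_map.1 hr
      exact hidxS a a.2)
    rw [Finset.sum_map] at h1
    exact h1
  refine ⟨2, 4, S, fun r => 2 * idx r, 1 / 2, Nat.prime_two, by norm_num, by norm_num, ?_,
    summable_of_sum_le hnn hsum, ?_, ?_⟩
  · intro r hr
    obtain ⟨h1, h2⟩ := hidxS r hr
    exact (mem_zass (n := 2 * idx r) (by omega)).1 (hRD (idx r) r h2)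
  · have h1 := Real.tsum_le_of_sum_le hnn hsum
    push_cast
    linarith
  · intro ε hε
    obtain ⟨C, hC0, hC⟩ := count_zass (zass (F := FreeGroup (Fin 4)))
    obtain ⟨I, hI⟩ := growth C hC0 ε hε
    refine ⟨2 ^ (max I 10) + 1, fun n hn => ?_⟩
    set i := Nat.clog 2 n with hi
    have hn2 : n ≤ 2 ^ i := Nat.le_pow_clog (by norm_num) n
    have hi1 : max I 10 < i := by
      have : 2 ^ (max I 10) < 2 ^ i := by omega
      exact (Nat.pow_lt_pow_iff_right (by norm_num)).1 this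
    have hIi : I ≤ i := le_trans (le_max_left _ _) hi1.le
    have h10i : 10 ≤ i := le_trans (le_max_right _ _) hi1.le
    have hn3 : 2 ^ i ≤ 2 * n := by
      have h1 : 2 ^ (i - 1) < n := by
        have := Nat.pow_pred_clog_lt_self (b := 2) (by norm_num) (x := n)
          (by have : 2 ≤ 2 ^ (max I 10) := by
                calc 2 = 2 ^ 1 := by norm_num
                  _ ≤ 2 ^ (max I 10) := Nat.pow_le_pow_right (by norm_num)
                    (le_trans (by norm_num) (le_max_right I 10))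
              omega)
        simpa [hi] using this
      have h2 : 2 ^ i = 2 * 2 ^ (i - 1) := by
        rw [← pow_succ']
        congr 1
        omega
      omega
    set π := QuotientGroup.mk' (Subgroup.normalClosure S) with hπ
    have hπs : Function.Surjective π := QuotientGroup.mk'_surjective _
    have hcomap : ∀ H : Subgroup (FreeGroup (Fin 4) ⧸ Subgroup.normalClosure S),
        H.index ≠ 0 → H.index ≤ n →
        (zass (F := FreeGroup (Fin 4))).D (2 * i) ≤ H.comap π := by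
      intro H h1 h2
      have h3 : (H.comap π).index = H.index := Subgroup.index_comap_of_surjective H hπs
      apply hRkill i (H.comap π) (by rw [h3]; exact h1) (by rw [h3]; exact h2.trans hn2)
      intro r hr
      have hrS : r ∈ Subgroup.normalClosure S := Subgroup.subset_normalClosure ⟨i, h10i, hr⟩
      have : π r = 1 := (QuotientGroup.eq_one_iff r).2 hrS
      show π r ∈ H
      rw [this]
      exact H.one_mem
    obtain ⟨hfin, hcard⟩ := hC i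
    have h1 : Set.ncard {H : Subgroup (FreeGroup (Fin 4) ⧸ Subgroup.normalClosure S) |
          H.index ≠ 0 ∧ H.index ≤ n} ≤
        {H : Subgroup (FreeGroup (Fin 4)) | (zass (F := FreeGroup (Fin 4))).D (2 * i) ≤ H ∧
          H.index ≠ 0 ∧ H.index ≤ 2 ^ i}.ncard := by
      apply Set.ncard_le_ncard_of_injOn (fun H => H.comap π) _ _ hfin
      · rintro H ⟨h2, h3⟩
        have h4 : (H.comap π).index = H.index := Subgroup.index_comap_of_surjective H hπs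
        exact ⟨hcomap H h2 h3, by rw [h4]; exact h2, by rw [h4]; exact h3.trans hn2⟩
      · intro H _ H' _ h
        exact Subgroup.comap_injective hπs h
    have h2 : ((Set.ncard {H : Subgroup (FreeGroup (Fin 4) ⧸ Subgroup.normalClosure S) |
          H.index ≠ 0 ∧ H.index ≤ n} : ℕ) : ℝ) ≤
          ((i + 1 : ℕ) : ℝ) * (2 : ℝ) ^ (i * ⌊C * (3 / 2 : ℝ) ^ i⌋₊) := by
      have h3 := h1.trans hcard
      exact_mod_cast h3
    refine h2.trans ((hI i hIi).trans ?_)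
    apply Real.exp_le_exp.2
    apply mul_le_mul_of_nonneg_left _ hε.le
    have : ((2 ^ i : ℕ) : ℝ) ≤ ((2 * n : ℕ) : ℝ) := by exact_mod_cast hn3
    push_cast at this
    linarith

end Pool.Agent.MP306e37
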