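import Pool.Agent.MP306e37.Half

set_option autoImplicit false
set_option linter.unusedSectionVars false

/-!
Weighted generating lists and how they change when passing to a subgroup of index two.
-/

namespace Pool.Agent.MP306e37

open Subgroup

variable {F : Type*} [Group F]

/-- A list of elements with weights; each element lies in the term of the filtration given by its
weight, and the elements generate `K`. -/
structure GenList (Φ : Filt F) (K : Subgroup F) (L : List (F × ℕ)) : Prop where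
  wt : ∀ p ∈ L, p.1 ∈ Φ.D p.2
  gen : Subgroup.closure {x | ∃ w, (x, w) ∈ L} = K

/-- Total weight. -/
noncomputable def W (s : ℝ) (L : List (F × ℕ)) : ℝ := (L.map (fun p => s ^ p.2)).sum

theorem GenList.mem {Φ : Filt F} {K : Subgroup F} {L : List (F × ℕ)} (h : GenList Φ K L)
    {p : F × ℕ} (hp : p ∈ L) : p.1 ∈ K := by
  rw [← h.gen]
  exact Subgroup.subset_closure ⟨p.2, hp⟩

theorem W_nonneg {s : ℝ} (hs : 0 ≤ s) (L : List (F × ℕ)) : 0 ≤ W s L := by
  unfold W
  apply List.sum_nonneg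
  intro x hx
  obtain ⟨p, -, rfl⟩ := List.mem_map.1 hx
  positivity

theorem W_cons (s : ℝ) (p : F × ℕ) (L : List (F × ℕ)) : W s (p :: L) = s ^ p.2 + W s L := by
  simp [W]

theorem W_append (s : ℝ) (L L' : List (F × ℕ)) : W s (L ++ L') = W s L + W s L' := by
  simp [W]

theorem le_W {s : ℝ} (hs : 0 ≤ s) {L : List (F × ℕ)} {p : F × ℕ} (hp : p ∈ L) :
    s ^ p.2 ≤ W s L := by
  unfold W
  apply List.single_le_sum
  · intro x hx
    obtain ⟨q, -, rfl⟩ := List.mem_map.1 hx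
    positivity
  · exact List.mem_map.2 ⟨p, hp, rfl⟩

/-- The list for the subgroup of index two. -/
noncomputable def newList (H : Subgroup F) (y : F) (l : ℕ) (L : List (F × ℕ)) :
    List (F × ℕ) := by
  classical
  exact (y * y, l + l) ::
    (L.map (fun p => (if p.1 ∈ H then p.1 else p.1 * y⁻¹, p.2)) ++
      L.map (fun p => (y * (if p.1 ∈ H then p.1 else p.1 * y⁻¹) * y⁻¹ *
        (if p.1 ∈ H then p.1 else p.1 * y⁻¹)⁻¹, l + p.2)))

theorem W_newList (s : ℝ) (H : Subgroup F) (y : F) (l : ℕ) (L : List (F × ℕ)) :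
    W s (newList H y l L) = s ^ l * s ^ l + (1 + s ^ l) * W s L := by
  unfold newList
  rw [W_cons, W_append]
  have h1 : ∀ f : F × ℕ → F, W s (L.map (fun p => (f p, p.2))) = W s L := by
    intro f
    simp [W, Function.comp_def]
  have h2 : ∀ f : F × ℕ → F, W s (L.map (fun p => (f p, l + p.2))) = s ^ l * W s L := by
    intro f
    simp [W, Function.comp_def, pow_add, List.sum_map_mul_left]
  rw [h1, h2]
  simp only [pow_add]
  ring

theorem genList_newList {Φ : Filt F} {H K : Subgroup F} (hHK : Half H K) {L : List (F × ℕ)}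
    (hL : GenList Φ K L) {y : F} {l : ℕ} (hyK : y ∈ K) (hyH : y ∉ H) (hyl : y ∈ Φ.D l)
    (hmax : ∀ p ∈ L, p.1 ∉ H → p.2 ≤ l) : GenList Φ H (newList H y l L) := by
  classical
  -- the modified elements
  set m : F × ℕ → F := fun p => if p.1 ∈ H then p.1 else p.1 * y⁻¹ with hm
  have hLdef : newList H y l L = (y * y, l + l) :: (L.map (fun p => (m p, p.2)) ++
      L.map (fun p => (y * m p * y⁻¹ * (m p)⁻¹, l + p.2))) := by
    unfold newList
    simp only [hm]
  have hyinv : y⁻¹ ∈ K := K.inv_mem hyK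
  have hyinvH : y⁻¹ ∉ H := fun h => hyH (H.inv_mem_iff.1 h)
  have hmH : ∀ p ∈ L, m p ∈ H := by
    intro p hp
    simp only [hm]
    split_ifs with h
    · exact h
    · exact hHK.mul _ (hL.mem hp) _ hyinv h hyinvH
  have hmD : ∀ p ∈ L, m p ∈ Φ.D p.2 := by
    intro p hp
    simp only [hm]
    split_ifs with h
    · exact hL.wt p hp
    · exact (Φ.D p.2).mul_mem (hL.wt p hp)
        ((Φ.D p.2).inv_mem (Φ.le_of_le (hmax p hp h) hyl))
  have hmem : ∀ x w, (x, w) ∈ newList H y l L ↔ (x = y * y ∧ w = l + l) ∨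
      (∃ p ∈ L, m p = x ∧ p.2 = w) ∨ (∃ p ∈ L, y * m p * y⁻¹ * (m p)⁻¹ = x ∧ l + p.2 = w) := by
    intro x w
    rw [hLdef]
    simp only [List.mem_cons, Prod.mk.injEq, List.mem_append, List.mem_map]
  set N := Subgroup.closure {x | ∃ w, (x, w) ∈ newList H y l L} with hN
  have hyyN : y * y ∈ N := Subgroup.subset_closure ⟨l + l, (hmem _ _).2 (Or.inl ⟨rfl, rfl⟩)⟩
  have hmN : ∀ p ∈ L, m p ∈ N := fun p hp =>
    Subgroup.subset_closure ⟨p.2, (hmem _ _).2 (Or.inr (Or.inl ⟨p, hp, rfl, rfl⟩))⟩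
  have hcN : ∀ p ∈ L, y * m p * y⁻¹ * (m p)⁻¹ ∈ N := fun p hp =>
    Subgroup.subset_closure ⟨l + p.2, (hmem _ _).2 (Or.inr (Or.inr ⟨p, hp, rfl, rfl⟩))⟩
  have hNH : N ≤ H := by
    rw [hN, Subgroup.closure_le]
    rintro x ⟨w, hx⟩
    rcases (hmem x w).1 hx with ⟨rfl, -⟩ | ⟨p, hp, rfl, -⟩ | ⟨p, hp, rfl, -⟩
    · exact hHK.mul _ hyK _ hyK hyH hyH
    · exact hmH p hp
    · exact H.mul_mem (hHK.conj hyK hyH (hmH p hp)) (H.inv_mem (hmH p hp))
  -- conjugation by `y` preserves `N`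
  have hconjm : ∀ p ∈ L, y * m p * y⁻¹ ∈ N := by
    intro p hp
    have : y * m p * y⁻¹ = (y * m p * y⁻¹ * (m p)⁻¹) * m p := by group
    rw [this]; exact N.mul_mem (hcN p hp) (hmN p hp)
  have hyyc : ∀ c ∈ N, (y * y) * c * (y * y)⁻¹ ∈ N := fun c hc =>
    N.mul_mem (N.mul_mem hyyN hc) (N.inv_mem hyyN)
  have hconj : ∀ c ∈ N, y * c * y⁻¹ ∈ N := by
    intro c hc
    rw [hN] at hc
    induction hc using Subgroup.closure_induction with
    | mem x hx =>
      obtain ⟨w, hx⟩ := hx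
      rcases (hmem x w).1 hx with ⟨rfl, -⟩ | ⟨p, hp, rfl, -⟩ | ⟨p, hp, rfl, -⟩
      · have : y * (y * y) * y⁻¹ = y * y := by group
        rw [this]; exact hyyN
      · exact hconjm p hp
      · have : y * (y * m p * y⁻¹ * (m p)⁻¹) * y⁻¹ =
            ((y * y) * m p * (y * y)⁻¹) * (y * m p * y⁻¹)⁻¹ := by group
        rw [this]
        exact N.mul_mem (hyyc _ (hmN p hp)) (N.inv_mem (hconjm p hp))
    | one => simp
    | mul a b _ _ iha ihb =>
      have : y * (a * b) * y⁻¹ = (y * a * y⁻¹) * (y * b * y⁻¹) := by group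
      rw [this]; exact N.mul_mem iha ihb
    | inv a _ iha =>
      have : y * a⁻¹ * y⁻¹ = (y * a * y⁻¹)⁻¹ := by group
      rw [this]; exact N.inv_mem iha
  have hKE : K ≤ ext N y hconj hyyN := by
    rw [← hL.gen, Subgroup.closure_le]
    rintro x ⟨w, hx⟩
    have hx' := hmN (x, w) hx
    simp only [hm] at hx'
    split_ifs at hx' with h
    · exact Or.inl hx'
    · exact Or.inr hx'
  refine ⟨?_, ?_⟩
  · rintro ⟨x, w⟩ hx
    rcases (hmem x w).1 hx with ⟨rfl, rfl⟩ | ⟨p, hp, rfl, rfl⟩ | ⟨p, hp, rfl, rfl⟩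
    · exact Φ.sq l y hyl
    · exact hmD p hp
    · exact Φ.comm l p.2 y (m p) hyl (hmD p hp)
  · apply le_antisymm hNH
    intro x hx
    rcases mem_ext.1 (hKE (hHK.le hx)) with h | h
    · exact h
    · exfalso
      apply hyH
      have h2 := H.mul_mem (H.inv_mem (hNH h)) hx
      have h3 : (x * y⁻¹)⁻¹ * x = y := by group
      rwa [h3] at h2

/-- The main index-two step. -/
theorem step {Φ : Filt F} {H K : Subgroup F} (hHK : Half H K) {L : List (F × ℕ)}
    (hL : GenList Φ K L) {g : F} {l : ℕ} (hgK : g ∈ K) (hgH : g ∉ H) (hgl : g ∈ Φ.D l)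
    {s : ℝ} (hs0 : 0 < s) (hs1 : s ≤ 1) :
    ∃ L', GenList Φ H L' ∧ W s L' ≤ (1 + 2 * s ^ l) * W s L := by
  classical
  -- elements of `(g, l) :: L` outside `H`
  set S : List (F × ℕ) := ((g, l) :: L).filter (fun p => p.1 ∉ H) with hS
  have hSne : S ≠ [] := by
    intro h
    have : (g, l) ∈ S := by simp [hS, hgH]
    rw [h] at this
    simp at this
  obtain ⟨q, hqS, hqmax⟩ : ∃ q ∈ S, ∀ p ∈ S, p.2 ≤ q.2 := by
    obtain ⟨q, hq, hq'⟩ := Finset.exists_max_image S.toFinset (fun p => p.2)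
      (by
        obtain ⟨a, ha⟩ := List.exists_mem_of_ne_nil S hSne
        exact ⟨a, List.mem_toFinset.2 ha⟩)
    exact ⟨q, List.mem_toFinset.1 hq, fun p hp => hq' p (List.mem_toFinset.2 hp)⟩
  have hq1 : q.1 ∉ H := by
    have := List.mem_filter.1 hqS
    simpa using this.2
  have hq2 : q = (g, l) ∨ q ∈ L := by
    have := (List.mem_filter.1 hqS).1
    simpa using this
  have hqK : q.1 ∈ K := by
    rcases hq2 with h | h
    · rw [h]; exact hgK
    · exact hL.mem h
  have hqD : q.1 ∈ Φ.D q.2 := by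
    rcases hq2 with h | h
    · rw [h]; exact hgl
    · exact hL.wt q h
  have hmax : ∀ p ∈ L, p.1 ∉ H → p.2 ≤ q.2 := by
    intro p hp hpH
    apply hqmax
    simp [hS, hpH, hp]
  have hlq : l ≤ q.2 := by
    apply hqmax (g, l)
    simp [hS, hgH]
  -- some element of `L` lies outside `H`
  obtain ⟨p, hpL, hpH⟩ : ∃ p ∈ L, p.1 ∉ H := by
    by_contra hcon
    push Not at hcon
    have : K ≤ H := by
      rw [← hL.gen, Subgroup.closure_le]
      rintro x ⟨w, hx⟩
      exact hcon (x, w) hx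
    obtain ⟨a, ha, ha'⟩ := hHK.ne
    exact ha' (this ha)
  refine ⟨newList H q.1 q.2 L, genList_newList hHK hL hqK hq1 hqD hmax, ?_⟩
  rw [W_newList]
  have hW0 : 0 ≤ W s L := W_nonneg hs0.le L
  have hW1 : s ^ q.2 ≤ W s L :=
    (pow_le_pow_of_le_one hs0.le hs1 (hmax p hpL hpH)).trans (le_W hs0.le hpL)
  have hq0 : 0 ≤ s ^ q.2 := by positivity
  have hql : s ^ q.2 ≤ s ^ l := pow_le_pow_of_le_one hs0.le hs1 hlq
  nlinarith [mul_le_mul_of_nonneg_left hW1 hq0, mul_le_mul_of_nonneg_right hql hW0]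

end Pool.Agent.MP306e37
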