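import Mathlib

set_option autoImplicit false

/-!
Index-two steps in a filtered group, with weighted generating lists.
-/

namespace Pool.Agent.MP306e37

open Subgroup

/-- A descending filtration of a group by subgroups that behaves like the mod-2 Zassenhaus
filtration. -/
structure Filt (F : Type*) [Group F] where
  D : ℕ → Subgroup F
  D0 : D 0 = ⊤
  D1 : D 1 = ⊤
  anti : ∀ n, D (n + 1) ≤ D n
  comm : ∀ a b g h, g ∈ D a → h ∈ D b → g * h * g⁻¹ * h⁻¹ ∈ D (a + b)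
  sq : ∀ a g, g ∈ D a → g * g ∈ D (a + a)

variable {F : Type*} [Group F]

theorem Filt.le_of_le (Φ : Filt F) {a b : ℕ} (h : a ≤ b) : Φ.D b ≤ Φ.D a := by
  induction b, h using Nat.le_induction with
  | base => exact le_rfl
  | succ n _ ih => exact (Φ.anti n).trans ih

/-- `H` has index two in `K`. -/
structure Half (H K : Subgroup F) : Prop where
  le : H ≤ K
  ne : ∃ a ∈ K, a ∉ H
  mul : ∀ a ∈ K, ∀ b ∈ K, a ∉ H → b ∉ H → a * b ∈ H

theorem Half.conj {H K : Subgroup F} (h : Half H K) {a c : F} (ha : a ∈ K) (ha' : a ∉ H)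
    (hc : c ∈ H) : a * c * a⁻¹ ∈ H := by
  apply h.mul (a * c) (K.mul_mem ha (h.le hc)) a⁻¹ (K.inv_mem ha)
  · intro h1
    exact ha' ((H.mul_mem_cancel_right hc).1 h1)
  · intro h1
    exact ha' (H.inv_mem_iff.1 h1)

theorem Half.mul_mem_iff {H K : Subgroup F} (h : Half H K) {a b : F} (ha : a ∈ K) (hb : b ∈ K) :
    a * b ∈ H ↔ (a ∈ H ↔ b ∈ H) := by
  by_cases ha' : a ∈ H
  · simp [ha', H.mul_mem_cancel_left ha']
  · by_cases hb' : b ∈ H
    · simp [ha', hb', H.mul_mem_cancel_right hb']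
    · simp [ha', hb', h.mul a ha b hb ha' hb']

theorem Half.relIndex {H K : Subgroup F} (h : Half H K) : H.relIndex K = 2 := by
  obtain ⟨a, ha, ha'⟩ := h.ne
  rw [Subgroup.relIndex, Subgroup.index_eq_two_iff]
  refine ⟨⟨a, ha⟩, ?_⟩
  rintro ⟨b, hb⟩
  have := h.mul_mem_iff hb ha
  simp only [Subgroup.mem_subgroupOf, Subgroup.coe_mul]
  rw [this]
  by_cases hb' : b ∈ H <;> simp [hb', ha']

theorem Half.index {H K : Subgroup F} (h : Half H K) : H.index = 2 * K.index := by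
  rw [← Subgroup.relIndex_mul_index h.le, h.relIndex]

/-- The subgroup `H ∪ H g` when `g` normalizes `H` and `g ^ 2 ∈ H`. -/
def ext (H : Subgroup F) (g : F) (h1 : ∀ c ∈ H, g * c * g⁻¹ ∈ H)
    (h2 : g * g ∈ H) : Subgroup F where
  carrier := {x | x ∈ H ∨ x * g⁻¹ ∈ H}
  one_mem' := Or.inl H.one_mem
  mul_mem' := by
    rintro x y (hx | hx) (hy | hy)
    · exact Or.inl (H.mul_mem hx hy)
    · right
      have : x * y * g⁻¹ = x * (y * g⁻¹) := by group
      rw [this]; exact H.mul_mem hx hy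
    · right
      have : x * y * g⁻¹ = (x * g⁻¹) * (g * y * g⁻¹) := by group
      rw [this]; exact H.mul_mem hx (h1 _ hy)
    · left
      have : x * y = (x * g⁻¹) * (g * (y * g⁻¹) * g⁻¹) * (g * g) := by group
      rw [this]; exact H.mul_mem (H.mul_mem hx (h1 _ hy)) h2
  inv_mem' := by
    rintro x (hx | hx)
    · exact Or.inl (H.inv_mem hx)
    · right
      have : x⁻¹ * g⁻¹ = ((g * (x * g⁻¹) * g⁻¹) * (g * g))⁻¹ := by group
      rw [this]; exact H.inv_mem (H.mul_mem (h1 _ hx) h2)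

theorem mem_ext {H : Subgroup F} {g : F} {h1 : ∀ c ∈ H, g * c * g⁻¹ ∈ H}
    {h2 : g * g ∈ H} {x : F} : x ∈ ext H g h1 h2 ↔ (x ∈ H ∨ x * g⁻¹ ∈ H) := Iff.rfl

theorem half_ext {H : Subgroup F} {g : F} (h1 : ∀ c ∈ H, g * c * g⁻¹ ∈ H)
    (h2 : g * g ∈ H) (hg : g ∉ H) : Half H (ext H g h1 h2) := by
  refine ⟨fun x hx => Or.inl hx, ⟨g, Or.inr (by simp), hg⟩, ?_⟩
  intro a ha b hb ha' hb'
  have ha2 : a * g⁻¹ ∈ H := (mem_ext.1 ha).resolve_left ha'
  have hb2 : b * g⁻¹ ∈ H := (mem_ext.1 hb).resolve_left hb'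
  have : a * b = (a * g⁻¹) * (g * (b * g⁻¹) * g⁻¹) * (g * g) := by group
  rw [this]; exact H.mul_mem (H.mul_mem ha2 (h1 _ hb2)) h2

/-- Upward step: a proper subgroup `H` containing `D e` has index two in a larger subgroup, and
the new elements can be taken in `D m` as long as `D m` is not contained in `H`. -/
theorem Filt.exists_half (Φ : Filt F) {H : Subgroup F} {e m : ℕ} (he : Φ.D e ≤ H)
    (hm : ¬ Φ.D m ≤ H) : ∃ K g, Half H K ∧ g ∈ K ∧ g ∈ Φ.D m ∧ g ∉ H := by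
  classical
  have hex : ∃ j, Φ.D j ≤ H := ⟨e, he⟩
  set j := Nat.find hex with hj
  have hjH : Φ.D j ≤ H := Nat.find_spec hex
  have hmj : m < j := by
    by_contra hcon
    exact hm ((Φ.le_of_le (not_lt.1 hcon)).trans hjH)
  obtain ⟨i, hi⟩ : ∃ i, j = i + 1 := ⟨j - 1, by omega⟩
  have hiH : ¬ Φ.D i ≤ H := Nat.find_min hex (by omega)
  have hi0 : i ≠ 0 := by
    rintro rfl
    apply hiH
    rw [Φ.D0, ← Φ.D1]
    rw [hi] at hjH
    simpa using hjH
  obtain ⟨g, hgi, hgH⟩ : ∃ g ∈ Φ.D i, g ∉ H := by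
    by_contra hcon
    push Not at hcon
    exact hiH hcon
  rw [hi] at hjH
  have h1 : ∀ c ∈ H, g * c * g⁻¹ ∈ H := by
    intro c hc
    have hc1 : c ∈ Φ.D 1 := by rw [Φ.D1]; trivial
    have := hjH (Φ.comm i 1 g c hgi hc1)
    have h3 : g * c * g⁻¹ = (g * c * g⁻¹ * c⁻¹) * c := by group
    rw [h3]; exact H.mul_mem this hc
  have h2 : g * g ∈ H := hjH (Φ.le_of_le (by omega) (Φ.sq i g hgi))
  refine ⟨ext H g h1 h2, g, half_ext h1 h2 hgH, Or.inr (by simp), ?_, hgH⟩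
  exact Φ.le_of_le (by omega) hgi

theorem Filt.index_pow (Φ : Filt F) {e : ℕ} : ∀ (n : ℕ) (H : Subgroup F), Φ.D e ≤ H →
    H.index = n → n ≠ 0 → ∃ k, n = 2 ^ k := by
  intro n
  induction n using Nat.strong_induction_on with
  | _ n ih =>
    intro H he hn hn0
    by_cases htop : Φ.D 0 ≤ H
    · rw [Φ.D0, top_le_iff] at htop
      refine ⟨0, ?_⟩
      rw [← hn, htop]; simp
    · obtain ⟨K, g, hK, -, -, -⟩ := Φ.exists_half he htop
      have hi := hK.index
      rw [hn] at hi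
      obtain ⟨k, hk⟩ := ih K.index (by omega) K (he.trans hK.le) rfl (by omega)
      exact ⟨k + 1, by rw [hi, hk, pow_succ]; ring⟩

end Pool.Agent.MP306e37
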