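import Pool.Agent.MP306e37.Final

set_option autoImplicit false
set_option linter.style.haveILetI false

/-!
Every Golod-Shafarevich presentation (for the prime two) can be enlarged to one whose group has
at most `exp (n ^ η)` subgroups of index at most `n`, for every `η > 0` and all large `n`.
-/

namespace Pool.Agent.MP306e37

open Subgroup Filter Topology

theorem factorial_bound_gen (d i : ℕ) : ((2 ^ i).factorial) ^ d < 2 ^ (d * i * 2 ^ i + 1) := by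
  have h1 : (2 ^ i).factorial ≤ (2 ^ i) ^ (2 ^ i) := Nat.factorial_le_pow _
  have h2 : ((2 ^ i).factorial) ^ d ≤ ((2 ^ i) ^ (2 ^ i)) ^ d := Nat.pow_le_pow_left h1 d
  have h3 : ((2 ^ i) ^ (2 ^ i)) ^ d = 2 ^ (d * i * 2 ^ i) := by
    rw [← pow_mul, ← pow_mul]
    congr 1
    ring
  rw [h3] at h2
  refine lt_of_le_of_lt h2 ?_
  exact Nat.pow_lt_pow_right (by norm_num) (by omega)

/-- The choice of the weight base. -/
theorem exists_sM (m : ℕ) (q : ℝ) (hq : 1 < q) : ∃ s : ℝ, 0 < s ∧ s < 1 ∧ ∃ M : ℕ,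
    1 + 2 * s ^ M ≤ q * s ^ m := by
  have hc : Tendsto (fun s : ℝ => q * s ^ m) (𝓝 1) (𝓝 (q * 1 ^ m)) := by
    apply Continuous.tendsto
    fun_prop
  rw [one_pow, mul_one] at hc
  have h1 : ∀ᶠ s in 𝓝[<] (1 : ℝ), 1 < q * s ^ m :=
    (hc.mono_left nhdsWithin_le_nhds).eventually (lt_mem_nhds hq)
  have h2 : ∀ᶠ s in 𝓝[<] (1 : ℝ), (0 : ℝ) < s :=
    nhdsWithin_le_nhds (lt_mem_nhds (by norm_num : (0 : ℝ) < 1))
  obtain ⟨s, ⟨h3, h4⟩, h5⟩ := ((h1.and h2).and self_mem_nhdsWithin).exists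
  refine ⟨s, h4, h5, ?_⟩
  have h6 : Tendsto (fun M : ℕ => 1 + 2 * s ^ M) atTop (𝓝 (1 + 2 * 0)) :=
    ((tendsto_pow_atTop_nhds_zero_of_lt_one h4.le h5).const_mul 2).const_add 1
  rw [mul_zero, add_zero] at h6
  obtain ⟨M, hM⟩ := (h6.eventually (gt_mem_nhds h3)).exists
  exact ⟨M, hM.le⟩

/-- Counting the subgroups of index at most `2 ^ i` that contain `D (m i)`. -/
theorem count_gen {F : Type*} [Group F] [Group.FG F] (Φ : Filt F) (m : ℕ) (q : ℝ) (hq : 1 < q) :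
    ∃ C : ℝ, 0 ≤ C ∧ ∀ i : ℕ,
    {H : Subgroup F | Φ.D (m * i) ≤ H ∧ H.index ≠ 0 ∧ H.index ≤ 2 ^ i}.Finite ∧
    {H : Subgroup F | Φ.D (m * i) ≤ H ∧ H.index ≠ 0 ∧ H.index ≤ 2 ^ i}.ncard ≤
      (i + 1) * 2 ^ (i * ⌊C * q ^ i⌋₊) := by
  obtain ⟨s, hs0, hs1, M, hM⟩ := exists_sM m q hq
  obtain ⟨C, hC0, hC⟩ := Φ.exists_base M s
  refine ⟨C, hC0, fun i => ?_⟩
  apply Φ.count
  intro k hk H hH hidx
  obtain ⟨L, hL, hW⟩ := Φ.exists_genList (e := m * i) hs0 hs1.le hC0 hC k H hH hidx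
  refine ⟨L, hL, ?_⟩
  have h1 := length_filter_le hs0 hs1.le (m * i) L
  set len := (L.filter (fun p => decide (p.2 < m * i))).length with hlen
  apply Nat.le_floor
  have hsM : (0 : ℝ) < s ^ M := by positivity
  have h2 : (1 + 2 * s ^ M) ^ k ≤ (1 + 2 * s ^ M) ^ i :=
    pow_le_pow_right₀ (by linarith) hk
  have h3 : (1 + 2 * s ^ M) ^ i ≤ (q * s ^ m) ^ i :=
    pow_le_pow_left₀ (by linarith) hM i
  have h4 : (len : ℝ) * s ^ (m * i) ≤ C * (q * s ^ m) ^ i :=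
    (h1.trans hW).trans (mul_le_mul_of_nonneg_left (h2.trans h3) hC0)
  rw [mul_pow, ← pow_mul, ← mul_assoc] at h4
  exact le_of_mul_le_mul_right h4 (by positivity)

/-- Numerical growth estimate. -/
theorem growth_gen (C : ℝ) (hC : 0 ≤ C) (q Q c : ℝ) (hq : 1 < q) (hqQ : q < Q) (hc : 0 < c) :
    ∃ I : ℕ, ∀ i : ℕ, I ≤ i →
      ((i + 1 : ℕ) : ℝ) * (2 : ℝ) ^ (i * ⌊C * q ^ i⌋₊) ≤ Real.exp (c * Q ^ i) := by
  have hQ1 : 1 < Q := hq.trans hqQ
  have hQ0 : 0 < Q := by linarith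
  have h1 := tendsto_self_mul_const_pow_of_lt_one (r := 1 / Q) (by positivity)
    (by rw [div_lt_one hQ0]; exact hQ1)
  have h2 := tendsto_self_mul_const_pow_of_lt_one (r := q / Q) (by positivity)
    (by rw [div_lt_one hQ0]; exact hqQ)
  have h3 : Tendsto (fun n : ℕ => (n : ℝ) * (1 / Q) ^ n + C * ((n : ℝ) * (q / Q) ^ n))
      atTop (𝓝 (0 + C * 0)) := h1.add (h2.const_mul C)
  rw [mul_zero, add_zero] at h3
  have h4 := h3.eventually (gt_mem_nhds hc)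
  obtain ⟨I, hI⟩ := eventually_atTop.1 h4
  refine ⟨I, fun i hi => ?_⟩
  have h5 := hI i hi
  have hQi : (0 : ℝ) < Q ^ i := by positivity
  have h6 : (i : ℝ) + C * (i * q ^ i) ≤ c * Q ^ i := by
    have e1 : Q ^ i * (1 / Q) ^ i = 1 := by
      rw [← mul_pow, mul_one_div_cancel hQ0.ne', one_pow]
    have e2 : Q ^ i * (q / Q) ^ i = q ^ i := by
      rw [← mul_pow, mul_div_cancel₀ _ hQ0.ne']
    have h7 := mul_le_mul_of_nonneg_left h5.le hQi.le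
    have h8 : Q ^ i * ((i : ℝ) * (1 / Q) ^ i + C * ((i : ℝ) * (q / Q) ^ i)) =
        i * (Q ^ i * (1 / Q) ^ i) + C * (i * (Q ^ i * (q / Q) ^ i)) := by ring
    rw [h8, e1, e2, mul_one] at h7
    linarith
  have h9 : ((i + 1 : ℕ) : ℝ) ≤ Real.exp i := by
    push_cast
    have := Real.add_one_le_exp (i : ℝ)
    linarith
  have h10 : (2 : ℝ) ^ (i * ⌊C * q ^ i⌋₊) ≤ Real.exp (C * (i * q ^ i)) := by
    have e3 : (2 : ℝ) ≤ Real.exp 1 := by
      have := Real.add_one_le_exp (1 : ℝ)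
      linarith
    have e4 : (0 : ℝ) ≤ C * q ^ i := by positivity
    calc (2 : ℝ) ^ (i * ⌊C * q ^ i⌋₊) ≤ (Real.exp 1) ^ (i * ⌊C * q ^ i⌋₊) :=
          pow_le_pow_left₀ (by norm_num) e3 _
      _ = Real.exp ((i * ⌊C * q ^ i⌋₊ : ℕ) : ℝ) := by
          rw [← Real.exp_nat_mul, mul_one]
      _ ≤ Real.exp (C * (i * q ^ i)) := by
          apply Real.exp_le_exp.2
          push_cast
          have : (⌊C * q ^ i⌋₊ : ℝ) ≤ C * q ^ i := Nat.floor_le e4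
          calc (i : ℝ) * (⌊C * q ^ i⌋₊ : ℝ) ≤ i * (C * q ^ i) :=
                mul_le_mul_of_nonneg_left this (by positivity)
            _ = _ := by ring
  calc ((i + 1 : ℕ) : ℝ) * (2 : ℝ) ^ (i * ⌊C * q ^ i⌋₊)
      ≤ Real.exp i * Real.exp (C * (i * q ^ i)) :=
        mul_le_mul h9 h10 (by positivity) (by positivity)
    _ = Real.exp (i + C * (i * q ^ i)) := by rw [← Real.exp_add]
    _ ≤ Real.exp (c * Q ^ i) := Real.exp_le_exp.2 h6

theorem sum_pow_half : Summable (fun i : ℕ => (i : ℝ) * (1 / 2 : ℝ) ^ i) := by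
  have h := summable_pow_mul_geometric_of_norm_lt_one (R := ℝ) 1 (r := (1 / 2 : ℝ)) (by norm_num)
  simpa using h

/-- The weights of the added relators are summable, with small tails. -/
theorem tail_small (d : ℕ) (δ : ℝ) (hδ : 0 < δ) : ∃ I : ℕ, 1 ≤ I ∧
    Summable (fun i : ℕ => ((d * (i + I) * 2 ^ (i + I) + 1 : ℕ) : ℝ) * (1 / 4 : ℝ) ^ (i + I)) ∧
    ∑' i : ℕ, ((d * (i + I) * 2 ^ (i + I) + 1 : ℕ) : ℝ) * (1 / 4 : ℝ) ^ (i + I) < δ := by
  have key : ∀ f : ℕ → ℝ, Summable f → ∃ I : ℕ, 1 ≤ I ∧ Summable (fun i => f (i + I)) ∧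
      ∑' i : ℕ, f (i + I) < δ := by
    intro f hf
    have h1 := tendsto_sum_nat_add f
    obtain ⟨I, hI, hI1⟩ := ((h1.eventually (gt_mem_nhds hδ)).and (eventually_ge_atTop 1)).exists
    exact ⟨I, hI1, (summable_nat_add_iff I).2 hf, hI⟩
  have hfs : Summable (fun i : ℕ => ((d * i * 2 ^ i + 1 : ℕ) : ℝ) * (1 / 4 : ℝ) ^ i) := by
    have e1 : Summable (fun i : ℕ => (d : ℝ) * ((i : ℝ) * (1 / 2 : ℝ) ^ i)) :=
      sum_pow_half.mul_left _
    have e2 : Summable (fun i : ℕ => (1 / 4 : ℝ) ^ i) :=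
      summable_geometric_of_lt_one (by norm_num) (by norm_num)
    have e3 : (fun i : ℕ => ((d * i * 2 ^ i + 1 : ℕ) : ℝ) * (1 / 4 : ℝ) ^ i) =
        fun i : ℕ => (d : ℝ) * ((i : ℝ) * (1 / 2 : ℝ) ^ i) + (1 / 4 : ℝ) ^ i := by
      funext i
      have h1 : (2 : ℝ) ^ i * (1 / 4 : ℝ) ^ i = (1 / 2 : ℝ) ^ i := by
        rw [← mul_pow]; norm_num
      push_cast
      rw [← h1]
      ring
    rw [e3]
    exact e1.add e2
  exact key _ hfs

end Pool.Agent.MP306e37
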